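import Mathlib
import Pool.Agent.helper59.FI3.SpecP3
import Pool.Agent.helper12.FI3.SpecO

/-!
# Project fi3 (MP_baa4d7_al), block N3: norms and the number of characters over a character of the centre

RULES. File `Pool/Agent/<seat>/FI3/XXX.lean` (directory FI3) with

  import Pool.Agent.helper70.FI3.SpecN3
  set_option autoImplicit false
  namespace Pool.Agent.FI3
  open Pool.Agent.helper58.DC Pool.Agent.DI Pool.Agent.GR Pool.Agent.OB Pool.Agent.DR Pool.Agent.FI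
  theorem XXX (hYYY : YYY_stmt) ... : XXX_stmt := ...
  end Pool.Agent.FI3

auxiliary lemmas prefixed `XXX_`, no sorry, no double quotes in the file. Any statement of this file, of `helper59/FI3/SpecP3`
(`FRA3 QCN3 QFU3 ..`), of the specs of project fi (`helper70/FI/SpecQ1`, `helper58/FI/SpecC`, `helper83/FI/SpecR`, `helper22/FI/SpecA`) and of
the older specs (GR, DI, DC) may be taken as a hypothesis (no circles); proved rows may also be imported.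

Notation: `L = cz P`; `Cz L y = L ⊓ centralizer {y}`; `cjF l ψ x = ψ (l⁻¹ x l)`; `cjS l K = l K l⁻¹`; `mt K χ ψ` multiplicity;
`ev χ i g = ∑ᶠ x, i x * χ (g * x)`; `eS K S` the idempotent of the set `S` of characters of `K`; `Bl M L θ = {ψ ∈ IrrOn L | SB M L ψ θ}`;
`BlC M L θ y = {η ∈ IrrOn (Cz L y) | SB M L η θ}`; `EE p H ψ ψ' = |H|⁻¹ ∑ ψ v * ψ' v⁻¹` over the `p`-regular `v ∈ H`;
`Su p M L θ χ' u = |K|⁻¹ ∑ |ev χ' (eS K (Bl M K θ)) (u v)|²` over the `p`-regular `v ∈ K = Cz L u`; `wt M D L θ u = |T_L : Cz T_L u|`,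
`T_L = TT M D θ ⊓ L`; `XL M L θ Z l` the `ψ ∈ Bl M L θ` with `ψ z = l z * ψ 1` for `z ∈ Z`; `YY M D θ` = elements of `D` commuting with `TT`;
`LoS` (`helper59/FI3/DefsP3`): the local data. Facts in `SpecQ1`: `Q1_mono`, `Q1_BC`, `Q1_D_le` (`D ≤ cz P`), `Q1_C_le`, `Q1_C_Cz`. `mem_YY`.
-/

set_option autoImplicit false

namespace Pool.Agent.FI3

open Pool.Agent.helper58.DC Pool.Agent.DI Pool.Agent.GR Pool.Agent.OB Pool.Agent.DR Pool.Agent.FI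

/-! ## Weights -/

/-- **QWA3** (medium; PORT of QWT of project fi: copy `Pool/Agent/helper66/FIB/QWT.lean`). The number of the pairs. Proof: `L = cz P`, `K = Cz L y`, `C₀ = Cz L u₀`,
`T_L = TT M D θ ⊓ L`. CLAIM: the first components of the pairs are exactly the elements `l₀ c t`, `c ∈ C₀`, `t ∈ T_L` (the second one is `l⁻¹ y l`). (a) Let `(l, u)` be a pair,
`k = l₀⁻¹ l ∈ L`, so `k u k⁻¹ = u₀`; `ψ = cjF l⁻¹ η ∈ IrrOn (Cz L u)`; `SB M (Cz L u) θ ψ` (FEQ with `l⁻¹`), `cjF k ψ = cjF l₀⁻¹ η`, `SB M (Cz L u₀) θ (cjF k ψ)` (FEQ with `l₀⁻¹`). QFU3: `c' ∈ C₀` with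
`t = c' k ∈ TT M D θ`, `t ∈ L`; so `l = l₀ c'⁻¹ t`. (b) Let `l = l₀ c t`, `u = t⁻¹ u₀ t ∈ D` (`TT ≤ nz D`): `l u l⁻¹ = y`. `SB M (cz D) (cjF t θ) θ` gives `SB M C₀ (cjF t θ) θ` (`Q1_mono`, `Q1_C_Cz`), conjugation by `c ∈ C₀` gives
`SB M C₀ (cjF (c t) θ) (cjF t θ)` (class functions of `C₀` are invariant, `cc_funMap`), so `SB M C₀ (cjF (c t) θ) (cjF l₀⁻¹ η)`, and `SB M K (cjF l θ) η` (FEQ with `l₀`). So the number is `|C₀ T_L| = |C₀| |T_L| / |C₀ ⊓ T_L|`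
(product formula for subgroups), `C₀ ⊓ T_L = Cz T_L u₀`, `|C₀| = |K|` (conjugate by `l₀`). Uses: QFU3, FEQ. -/
def QWA3_stmt : Prop :=
  ∀ (p : ℕ) (M : Ideal (integralClosure ℤ ℂ)), Setup p M → ∀ (G : Type) [Group G] [Finite G]
    (D : Subgroup G) (x : G) (θ χ : G → ℂ), LoS p M D x θ χ → ∀ P ≤ D, ∀ y : G,
    ∀ η ∈ IrrOn (Cz (cz P) y), ∀ l₀ ∈ cz P, ∀ u₀ ∈ D, l₀ * u₀ * l₀⁻¹ = y →
    SB M (Cz (cz P) y) (cjF l₀ θ) η →
    Nat.card {q : G × G // q.1 ∈ cz P ∧ q.2 ∈ D ∧ q.1 * q.2 * q.1⁻¹ = y ∧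
      SB M (Cz (cz P) y) (cjF q.1 θ) η} = wt M D (cz P) θ u₀ * Nat.card (Cz (cz P) y)

/-- **QWT3** (short). Weights. Proof: let `S` be the set of pairs. QCN3: `l ∈ L` with `u₀ = l y l⁻¹ ∈ D`, `SB M (Cz L u₀) θ (cjF l η)`; by FEQ with `l⁻¹` (`cjS l⁻¹ (Cz L u₀) = Cz L y`) `(l⁻¹, u₀) ∈ S`.
By QWA3 for every `q ∈ S`: `|S| = wt q.2 * |K|`; `|S| ≠ 0`, so the summand is `|K| / |S|` and the sum is `|K|`. Uses: QWA3, QCN3, FEQ. -/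
def QWT3_stmt : Prop :=
  ∀ (p : ℕ) (M : Ideal (integralClosure ℤ ℂ)), Setup p M → ∀ (G : Type) [Group G] [Finite G]
    (D : Subgroup G) (x : G) (θ χ : G → ℂ), LoS p M D x θ χ → ∀ P ≤ D, ∀ y ∈ cz P, PEl p y →
    ∀ η ∈ IrrOn (Cz (cz P) y), SB M (cz P) η θ →
    ∑ᶠ q ∈ {q : G × G | q.1 ∈ cz P ∧ q.2 ∈ D ∧ q.1 * q.2 * q.1⁻¹ = y ∧
      SB M (Cz (cz P) y) (cjF q.1 θ) η}, (1 : ℂ) / (wt M D (cz P) θ q.2 : ℂ) =
      (Nat.card (Cz (cz P) y) : ℂ)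

/-! ## The contributions `Su` -/

/-- **SUA3** (short to medium). Proof: `K = Cz L u`, `b = Bl M K θ` (finite, B2). QES (first item, `g = u v ∈ K`): `ev χ' (eS K b) (u v) = ∑ᶠ ψ ∈ b, mt K χ' ψ * ψ (u v)`, QCE (`u` is central in `K`): `ψ (u v) = (ψ u / ψ 1) * ψ v` (`ψ 1 ≠ 0`).
So with `a ψ = mt K χ' ψ * (ψ u / ψ 1)` the value is `∑ a ψ * ψ v`, its conjugate is `∑ conj (a ψ') * ψ' v⁻¹` (CHC). Multiply out, exchange the finite sums. (Compare the proof of QMS, `Pool/Agent/helper52/FIB/QMS.lean`.)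
Uses: QES, QCE, CHC, B2. -/
def SUA3_stmt : Prop :=
  ∀ (p : ℕ) (M : Ideal (integralClosure ℤ ℂ)) (G : Type) [Group G] [Finite G]
    (L : Subgroup G) (θ : G → ℂ), ∀ u ∈ L, ∀ χ' ∈ IrrOn L,
    Su p M L θ χ' u = ∑ᶠ ψ ∈ Bl M (Cz L u) θ, ∑ᶠ ψ' ∈ Bl M (Cz L u) θ,
      (mt (Cz L u) χ' ψ * (ψ u / ψ 1)) * (starRingEnd ℂ) (mt (Cz L u) χ' ψ' * (ψ' u / ψ' 1)) *
        EE p (Cz L u) ψ ψ'

/-- **SUC3** (short). Transport by `l ∈ L`. Proof: SUA3; `K = Cz L u`, `Cz L (l u l⁻¹) = cjS l K` (FEQ; `cjS l L = L`), `ψ ↦ cjF l ψ` is a bijection from `Bl M K θ` to `Bl M (cjS l K) (cjF l θ)` (FEQ, inverse `cjF l⁻¹`);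
`mt (cjS l K) χ' (cjF l ψ) = mt K χ' ψ` and `EE p (cjS l K) (cjF l ψ) (cjF l ψ') = EE p K ψ ψ'` (QCJ; `χ'` is a class function of `L`, B2), `cjF l ψ (l u l⁻¹) = ψ u`, `cjF l ψ 1 = ψ 1`. Uses: SUA3, QCJ, FEQ, B2. -/
def SUC3_stmt : Prop :=
  ∀ (p : ℕ) (M : Ideal (integralClosure ℤ ℂ)) (G : Type) [Group G] [Finite G]
    (L : Subgroup G) (θ : G → ℂ), ∀ u ∈ L, ∀ l ∈ L, ∀ χ' ∈ IrrOn L, ∀ y : G, y = l * u * l⁻¹ →
    Su p M L θ χ' u = ∑ᶠ ψ ∈ Bl M (Cz L y) (cjF l θ), ∑ᶠ ψ' ∈ Bl M (Cz L y) (cjF l θ),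
      (mt (Cz L y) χ' ψ * (ψ y / ψ 1)) * (starRingEnd ℂ) (mt (Cz L y) χ' ψ' * (ψ' y / ψ' 1)) *
        EE p (Cz L y) ψ ψ'

/-! ## Norms -/

/-- **QMY3** (medium; compare QMY of project fi, `Pool/Agent/helper15/FIB/QMY.lean`). One section `y`. Proof: `L = cz P`, `K = Cz L y`, `T = BlC M L θ y` (finite), `a η = mt K χ' η * (η y / η 1)`. QMS: the left side is
`|K| ∑_{η, η' ∈ T} a η * conj (a η') * EE p K η η'`. Insert for every `η ∈ T` QWT3: `|K| = ∑_q 1 / wt q.2` over the pairs `q = (l, u)` of `η` (`l u l⁻¹ = y`, `SB M K (cjF l θ) η`). Exchange the sums: for a pair `q` (without the last condition) the `η` run through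
`Bl M K (cjF l θ)`, which is contained in `T` (`SB M L (cjF l θ) θ` as `l ∈ L`: class functions of `L` are invariant, `cc_funMap`, and `Q1_mono`; `cjF l θ` vanishes outside `cz (cjS l D) ≤ K`), and for `η` in it and `η' ∈ T` not in it `EE p K η η' = 0`
(QEI (2) for the block `Bl M K (cjF l θ)`, `Q1_BC`). So the inner double sum is over `Bl M K (cjF l θ)`, and is `Su p M L θ χ' u` by SUC3 (`u ∈ D ≤ L`). Uses: QMS, QWT3, SUC3, QEI, FEQ, B2. -/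
def QMY3_stmt : Prop :=
  ∀ (p : ℕ) (M : Ideal (integralClosure ℤ ℂ)), Setup p M → ∀ (G : Type) [Group G] [Finite G]
    (D : Subgroup G) (x : G) (θ χ : G → ℂ), LoS p M D x θ χ → ∀ P ≤ D, ∀ y ∈ cz P, PEl p y →
    ∀ χ' ∈ Bl M (cz P) θ,
    ∑ᶠ v ∈ {v : G | v ∈ Cz (cz P) y ∧ PReg p v}, χ' (y * v) * χ' (y * v)⁻¹ =
    ∑ᶠ q ∈ {q : G × G | q.1 ∈ cz P ∧ q.2 ∈ D ∧ q.1 * q.2 * q.1⁻¹ = y},
      Su p M (cz P) θ χ' q.2 / (wt M D (cz P) θ q.2 : ℂ)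

/-- **QMXS** (short to medium; compare QMX of project fi, `Pool/Agent/helper20/FIB/QMX.lean`). Norms. Proof: `L = cz P`. `|L| = ∑_{g ∈ L} χ' g * χ' g⁻¹` (B2) `= ∑_y ∑_{v ∈ Cz L y, PReg} χ' (y v) * χ' (y v)⁻¹` over the `p`-elements `y ∈ L` (PPT of GR)
`= ∑_y ∑_{q : q.1 q.2 q.1⁻¹ = y} Su q.2 / wt q.2` (QMY3). Every `(l, u)`, `l ∈ L`, `u ∈ D`, occurs for exactly one `y` (`l u l⁻¹ ∈ L` is a `p`-element, `D ≤ L` by `Q1_D_le`, `D` is a `p`-group: `rt.dfa.pgrp`), so the sum is `|L| ∑_{u ∈ D} Su u / wt u`.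
Divide by `|L|`. Uses: B2, PPT, QMY3. -/
def QMXS_stmt : Prop :=
  ∀ (p : ℕ) (M : Ideal (integralClosure ℤ ℂ)), Setup p M → ∀ (G : Type) [Group G] [Finite G]
    (D : Subgroup G) (x : G) (θ χ : G → ℂ), LoS p M D x θ χ → ∀ P ≤ D, ∀ χ' ∈ Bl M (cz P) θ,
    (1 : ℂ) = ∑ᶠ u ∈ (D : Set G), Su p M (cz P) θ χ' u / (wt M D (cz P) θ u : ℂ)

/-! ## The sum of the contributions over the characters over `l` -/

/-- **DCV3** (short to medium). Second main theorem for one block of `K = Cz H y`. Proof: `K = Cz H y`, `i = eS K S`, `e = eS H E`, `i' = cv i e`, `g = y v ∈ K`. `i`, `e`, `i'` are `Idm M H` (support; EIN; IDM (idempotent), `e` is central in the group algebra of `H`: CVF) and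
invariant under conjugation by `g ∈ K` (`CF K i`, `CF H e`: IDM). For `x ∈ K`: `cv i (eS K F) = i` because `S ⊆ F` (both sides are class functions of `K` with the same `cc ψ`, `ψ ∈ IrrOn K`: IDM, CCI, EXP), so
`i x - i' x = ∑_{w ∈ K} i w * (eS K F (w⁻¹ x) - e (w⁻¹ x))` is `InM` (`w⁻¹ x ∈ K`). RR1 (SpecR): `ev χ' i g = ev χ' i' g = cc χ' e * ev χ' i g` (EVM) `= 0`, because `cc χ' e = 0` for `χ' ∉ E` (IDM).
(Compare DOC of `helper58/FI/SpecC`, `Pool/Agent/helper74/FI/DOC.lean`.) Uses: RR1, EVM, IDM, EIN, CVF, CCI, EXP, B2. -/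
def DCV3_stmt : Prop :=
  ∀ (p : ℕ) (M : Ideal (integralClosure ℤ ℂ)), Setup p M → ∀ (G : Type) [Group G] [Finite G]
    (H : Subgroup G), ∀ y ∈ H, PEl p y → ∀ v ∈ Cz H y, PReg p v → ∀ E S F : Set (G → ℂ), BC M H E →
    BC M (Cz H y) S → BC M (Cz H y) F → S ⊆ F →
    (∀ z ∈ Cz H y, InM M (eS H E z - eS (Cz H y) F z)) →
    ∀ χ' ∈ IrrOn H, χ' ∉ E → ev χ' (eS (Cz H y) S) (y * v) = 0

/-- **DBV3** (medium; PORT of DOB of project fi, copy `Pool/Agent/helper89/FI/DOB.lean`; easier with RR2). Orthogonality of columns. Proof: `i = eS (Cz H a) S`, `j = eS (Cz H u) S'` are `Idm M H` (EIN, IDM), invariant under `a v`, resp. `u v'`. RR2 (SpecR) for `y = a`, `y' = u`: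
let `z⁻¹ a z = u = w⁻¹ a w`, `z, w ∈ H`. `rs a i = i` (support in `Cz H a`), `co i j z w = cv i j'' (z w⁻¹)`, `j'' t = j (w⁻¹ t w)` (COF (5)), `j'' = eS (Cz H a) {cjF w ψ | ψ ∈ S'}` (`cjS w (Cz H u) = Cz H a`, FEQ), and `cv i j'' = 0` because the two sets of
characters are disjoint (class functions of `Cz H a`, all `cc` of the product are `0`: IDM, CCI, EXP). Uses: RR2, COF, IDM, EIN, CVF, CCI, EXP, FEQ. -/
def DBV3_stmt : Prop :=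
  ∀ (p : ℕ) (M : Ideal (integralClosure ℤ ℂ)), Setup p M → ∀ (G : Type) [Group G] [Finite G]
    (H : Subgroup G), ∀ a ∈ H, PEl p a → ∀ u ∈ H, PEl p u → ∀ v ∈ Cz H a, ∀ v' ∈ Cz H u, PReg p v →
    PReg p v' → ∀ S S' : Set (G → ℂ), BC M (Cz H a) S → BC M (Cz H u) S' →
    (∀ w ∈ H, w * u * w⁻¹ = a → ∀ ψ ∈ S', cjF w ψ ∉ S) →
    ∑ᶠ χ' ∈ IrrOn H, ev χ' (eS (Cz H a) S) (a * v) * ev χ' (eS (Cz H u) S') (u * v')⁻¹ = 0

/-- **TRZ3** (short to medium). Proof: `L = cz P`, `K = Cz L u = Cz L (z u)` (`z` commutes with `L`). DBV3 for `H = L`, `a = z u` (in `D`: a `p`-element of `L`), `u`, `v = v'`, `S = S' = Bl M K θ` (`Q1_BC`). The hypothesis: let `w ∈ L`, `w u w⁻¹ = z u`, `ψ ∈ Bl M K θ`, `cjF w ψ ∈ Bl M K θ`.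
QFU3 for `l = w` (`w u w⁻¹ = z u ∈ D`; `Cz L (w u w⁻¹) = K`): `k ∈ Cz L (z u)` with `t = k w ∈ TT M D θ`. `t u t⁻¹ = k (z u) k⁻¹ = z u`, and `t ∈ L` commutes with `z`, so `t^n u t^(-n) = z^n u` for all `n`. For `n = (cz D).relIndex (TT M D θ)` `t^n ∈ cz D` (`cz D` is normal in
`TT M D θ`: `cz_conj`), so `z^n = 1`; `n` is prime to `p` (`LoS.bet`) and `z` is a `p`-element: `z = 1`, a contradiction. Uses: DBV3, QFU3, (FRA3 for `cz D ≤ TT`). -/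
def TRZ3_stmt : Prop :=
  ∀ (p : ℕ) (M : Ideal (integralClosure ℤ ℂ)), Setup p M → ∀ (G : Type) [Group G] [Finite G]
    (D : Subgroup G) (x : G) (θ χ : G → ℂ), LoS p M D x θ χ → ∀ P ≤ D, ∀ u ∈ D,
    ∀ v ∈ Cz (cz P) u, PReg p v → ∀ z ∈ Zc D (cz P), z ≠ 1 →
    ∑ᶠ χ' ∈ IrrOn (cz P), ev χ' (eS (Cz (cz P) u) (Bl M (Cz (cz P) u) θ)) (z * u * v) *
      ev χ' (eS (Cz (cz P) u) (Bl M (Cz (cz P) u) θ)) (u * v)⁻¹ = 0

open Classical in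
/-- **TRL3** (short to medium). Central elements and the projection. Proof: first item: `ev χ' i (z g) = ∑_x i x * χ' (z (g x))` and `χ' (z w) * χ' 1 = χ' z * χ' w` (QCE, `z` is central in `L`). Second item: `m z = χ' z / χ' 1` is a homomorphism from `Z` to `ℂˣ` (QCE: `m (z z') = m z * m z'`,
`m 1 = 1`; `m z ≠ 0`), so `∑_{z ∈ Z} (l z)⁻¹ * m z` is `|Z|` if `m = l` on `Z` and `0` otherwise (orthogonality: a nontrivial character of a finite group sums to `0`). Uses: QCE, B2. -/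
def TRL3_stmt : Prop :=
  ∀ (G : Type) [Group G] [Finite G] (L Z : Subgroup G), Z ≤ L → (∀ z ∈ Z, Cen L z) →
    ∀ χ' ∈ IrrOn L,
    (∀ i : G → ℂ, ∀ z ∈ Z, ∀ g : G, ev χ' i (z * g) = χ' z / χ' 1 * ev χ' i g) ∧
    ∀ l : Z →* ℂˣ, ∑ᶠ z : Z, ((l z : ℂ))⁻¹ * (χ' z / χ' 1) =
      if (∀ z : Z, χ' z = (l z : ℂ) * χ' 1) then (Nat.card Z : ℂ) else 0

/-- **TRV3** (medium). The sum for one `v`. Proof: `L = cz P`, `K = Cz L u`, `b = Bl M K θ`, `h = eS K b`, `F χ' g = ev χ' h g`, `T z = ∑_{χ' ∈ IrrOn L} F χ' (z u v) * F χ' (u v)⁻¹`. `T z = 0` for `z ∈ Z`, `z ≠ 1` (TRZ3); `T 1 = Sf b v v` (RR4 of SpecR for `S = S' = b`, `v = v'`; `u` is a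
`p`-element of `L`, `b` is `BC` by `Q1_BC`). TRL3: `F χ' (z u v) = (χ' z / χ' 1) F χ' (u v)`. So `∑_{χ' ∈ IrrOn L} (∑_{z ∈ Z} (l z)⁻¹ (χ' z / χ' 1)) F χ' (u v) * F χ' (u v)⁻¹ = ∑_z (l z)⁻¹ T z = T 1 = Sf b v v`, and by TRL3 the left side is `|Z|` times the sum over the `χ' ∈ IrrOn L` over `l`.
Those which are not in `Bl M L θ` contribute `0`: `F χ' (u v) = 0` by DCV3 for `E = Bl M L θ`, `S = b`, `F = BlC M L θ u` (`Q1_BC`; `b ⊆ BlC` by `Q1_mono`, `θ` vanishes outside `cz D ≤ K`; `LoS.eqr`). Uses: TRZ3, TRL3, DCV3, RR4, B2. -/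
def TRV3_stmt : Prop :=
  ∀ (p : ℕ) (M : Ideal (integralClosure ℤ ℂ)), Setup p M → ∀ (G : Type) [Group G] [Finite G]
    (D : Subgroup G) (x : G) (θ χ : G → ℂ), LoS p M D x θ χ → ∀ P ≤ D, ∀ Z ≤ Zc D (cz P),
    ∀ l : Z →* ℂˣ, ∀ u ∈ D, ∀ v ∈ Cz (cz P) u, PReg p v →
    ∑ᶠ χ' ∈ XL M (cz P) θ Z l, ev χ' (eS (Cz (cz P) u) (Bl M (Cz (cz P) u) θ)) (u * v) *
      ev χ' (eS (Cz (cz P) u) (Bl M (Cz (cz P) u) θ)) (u * v)⁻¹ =
      Sf (Bl M (Cz (cz P) u) θ) v v / (Nat.card Z : ℂ)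

/-- **TRSS** (short). Proof: `K = Cz L u`. `conj (ev χ' h g) = ev χ' h g⁻¹` for `g ∈ K` (CJI of SpecR with `H = L`: `h` is supported on `K`, idempotent (IDM), invariant under `K`). So `|K| Su χ' u = ∑_v ev χ' h (u v) * ev χ' h (u v)⁻¹`; exchange the finite sums over `v` and `χ' ∈ XL` (a subset of
`IrrOn L`), TRV3: `(1/|Z|) ∑_{v ∈ K, PReg} Sf b v v = (|K|/|Z|) ∑_{ψ ∈ b} EE p K ψ ψ`. Uses: TRV3, CJI, IDM, B2. -/
def TRSS_stmt : Prop :=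
  ∀ (p : ℕ) (M : Ideal (integralClosure ℤ ℂ)), Setup p M → ∀ (G : Type) [Group G] [Finite G]
    (D : Subgroup G) (x : G) (θ χ : G → ℂ), LoS p M D x θ χ → ∀ P ≤ D, ∀ Z ≤ Zc D (cz P), ∀ l : Z →* ℂˣ,
    ∀ u ∈ D, ∑ᶠ χ' ∈ XL M (cz P) θ Z l, Su p M (cz P) θ χ' u =
      (∑ᶠ ψ ∈ Bl M (Cz (cz P) u) θ, EE p (Cz (cz P) u) ψ ψ) / (Nat.card Z : ℂ)

/-! ## The number of characters -/

/-- **GTR3** (short). The trace of a good block. Proof: `b = Bl M L θ`; HTN (`helper58/FI/SpecC`): `|D| * |L| * EE p L ψ ψ = |L|` for `ψ ∈ b`, and `|b| = |D|`. Uses: HTN. -/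
def GTR3_stmt : Prop :=
  ∀ (p : ℕ) (M : Ideal (integralClosure ℤ ℂ)), Setup p M → ∀ (G : Type) [Group G] [Finite G]
    (D L : Subgroup G) (θ : G → ℂ), Good p M D L θ → ∑ᶠ ψ ∈ Bl M L θ, EE p L ψ ψ = 1

/-- **NWT3** (short to medium). Weights and traces of the elements of `D`. Proof: `L = cz P`, `T = TT M D θ ≤ L` (FRA3, `P ≤ YY`), so `T ⊓ L = T`. (1) `Zc D L ≤ YY` as `T ≤ L`. (2) `u ∈ YY`: `Cz T u = T`, relIndex `1`. If `u ∈ Zc D L`, `Cz L u = L`. (3) `u ∈ D`, `u ∉ YY`: `Cz T u = cz D` (`⊆`: `LoS.sfr`; `⊇`: FRA3, `cz D ≤ T`, `u ∈ D`).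
`Cz L u = cz (P ⊔ zpowers u)`, `P ⊔ zpowers u ≤ D` is not contained in `YY`, so it is `Good` by hypothesis, GTR3. Uses: FRA3, GTR3. -/
def NWT3_stmt : Prop :=
  ∀ (p : ℕ) (M : Ideal (integralClosure ℤ ℂ)), Setup p M → ∀ (G : Type) [Group G] [Finite G]
    (D : Subgroup G) (x : G) (θ χ : G → ℂ), LoS p M D x θ χ →
    (∀ P ≤ D, ¬ P ≤ YY M D θ → Good p M D (cz P) θ) → ∀ P ≤ YY M D θ,
    Zc D (cz P) ≤ YY M D θ ∧ (∀ u ∈ YY M D θ, wt M D (cz P) θ u = 1) ∧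
    (∀ u ∈ Zc D (cz P), Cz (cz P) u = cz P) ∧
    ∀ u ∈ D, u ∉ YY M D θ → wt M D (cz P) θ u = iI M D θ ∧
      ∑ᶠ ψ ∈ Bl M (Cz (cz P) u) θ, EE p (Cz (cz P) u) ψ ψ = 1

/-- **N3CS** (medium). The number of the characters over a character of the centre. Proof: `L = cz P`, `lL` from QIR for `S = Bl M L θ` (`Q1_BC`; nonempty: EXB of SpecA for `cz D = L ⊓ cz D`, as in QCN / QIT). Sum QMXS over the `χ' ∈ XL M L θ Z l` (finite, in `Bl M L θ`), exchange the sums (finite), TRSS: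
`|XL| = ∑_{u ∈ D} (1 / wt u) * (1/|Z|) tr u`, `tr u = ∑ᶠ ψ ∈ Bl M (Cz L u) θ, EE p (Cz L u) ψ ψ`. Split `D` into `Zc D L` (`wt = 1`, `tr = lL`), `YY \ Zc D L` (`wt = 1`, `tr = iI` by hypothesis) and `D \ YY` (`wt = iI`, `tr = 1`): NWT3. Multiply by `iI * |Z|` (`iI ≠ 0`, finite index) and go
back to natural numbers (`Nat.cast_sub`, `Zc D L ≤ YY ≤ D`). Uses: QMXS, TRSS, NWT3, QIR, EXB, B2. -/
def N3CS_stmt : Prop :=
  ∀ (p : ℕ) (M : Ideal (integralClosure ℤ ℂ)), Setup p M → ∀ (G : Type) [Group G] [Finite G]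
    (D : Subgroup G) (x : G) (θ χ : G → ℂ), LoS p M D x θ χ →
    (∀ P ≤ D, ¬ P ≤ YY M D θ → Good p M D (cz P) θ) → ∀ P ≤ YY M D θ,
    (∀ u ∈ YY M D θ, u ∉ Zc D (cz P) →
      ∑ᶠ ψ ∈ Bl M (Cz (cz P) u) θ, EE p (Cz (cz P) u) ψ ψ = (iI M D θ : ℂ)) →
    ∃ lL : ℕ, 1 ≤ lL ∧ ∑ᶠ ψ ∈ Bl M (cz P) θ, EE p (cz P) ψ ψ = (lL : ℂ) ∧
    ∀ Z ≤ Zc D (cz P), ∀ l : Z →* ℂˣ,
    iI M D θ * (XL M (cz P) θ Z l).ncard * Nat.card Z =
      Nat.card (Zc D (cz P)) * iI M D θ * lL +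
      (Nat.card (YY M D θ) - Nat.card (Zc D (cz P))) * iI M D θ ^ 2 +
      (Nat.card D - Nat.card (YY M D θ))

end Pool.Agent.FI3
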