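import Pool.Agent.helper70.FI3.SpecN3

/-!
# Project fi3, block N3: the output statements of `helper12/FI3/SpecO` from `QMXS`, `TRSS`, `N3CS`
-/

set_option autoImplicit false

namespace Pool.Agent.FI3

open Pool.Agent.helper58.DC Pool.Agent.DI Pool.Agent.GR Pool.Agent.OB Pool.Agent.DR Pool.Agent.FI

theorem QMX3_of (h : QMXS_stmt) : QMX3_stmt :=
  fun p M hS G _ _ D x θ χ hl P hP χ' hχ' => h p M hS G D x θ χ hl.toLoS P hP χ' hχ'

theorem TRS_of (h : TRSS_stmt) : TRS_stmt :=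
  fun p M hS G _ _ D x θ χ hl P hP Z hZ l u hu => h p M hS G D x θ χ hl.toLoS P hP Z hZ l u hu

theorem N3C_of (h : N3CS_stmt) : N3C_stmt :=
  fun p M hS G _ _ D x θ χ hl P hP hg =>
    h p M hS G D x θ χ hl.toLoS hl.good P hP fun u hu hu' => (hg u hu hu').lb

end Pool.Agent.FI3
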