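import Pool.Agent.helper70.FI3.SpecN3

/-!
# Project fi3, row TRV3: the sum over the characters over `l`, for one `v`
-/

set_option autoImplicit false

namespace Pool.Agent.FI3

open Pool.Agent.helper58.DC Pool.Agent.DI Pool.Agent.GR Pool.Agent.OB Pool.Agent.DR Pool.Agent.FI

theorem TRV3 (hTRZ : TRZ3_stmt) (hTRL : TRL3_stmt) (hDCV : DCV3_stmt) (hRR4 : RR4_stmt) (hB2 : B2_stmt) :
    TRV3_stmt := by
  classical
  intro p M hS G _ _ D x θ χ lo P hP Z hZ l u hu v hv hvr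
  have hDL : D ≤ cz P := Q1_D_le lo.rt hP
  have huL : u ∈ cz P := hDL hu
  have hupe : PEl p u := by
    obtain ⟨k, hk⟩ := lo.rt.dfa.pgrp ⟨u, hu⟩
    exact ⟨k, congrArg Subtype.val hk⟩
  have hZcen : ∀ z ∈ Z, Cen (cz P) z := fun z hz => (Zc_mem.1 (hZ hz)).2
  have hZL : Z ≤ cz P := fun z hz => hDL (Zc_mem.1 (hZ hz)).1
  have hcz : cz D ≤ Cz (cz P) u := Q1_C_Cz hP hu
  have hfin : (IrrOn (cz P)).Finite := (hB2 G (cz P)).1
  obtain ⟨b, hb⟩ : ∃ b, b = Bl M (Cz (cz P) u) θ := ⟨_, rfl⟩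
  obtain ⟨h, hh⟩ : ∃ h, h = eS (Cz (cz P) u) b := ⟨_, rfl⟩
  rw [← hb, ← hh]
  have hBCb : BC M (Cz (cz P) u) b := by
    rw [hb]
    exact (Q1_BC M (Cz (cz P) u) 1 θ).1
  have hsub : b ⊆ BlC M (cz P) θ u := by
    intro ψ hψ
    rw [hb] at hψ
    exact ⟨hψ.1, Q1_mono inf_le_left hψ.1.1 (fun y hy => lo.rt.th.1 y fun h1 => hy (hcz h1)) hψ.2⟩
  have hF0 : ∀ χ' ∈ IrrOn (cz P), χ' ∉ Bl M (cz P) θ → ev χ' h (u * v) = 0 := by
    intro χ' h1 h2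
    rw [hh]
    exact hDCV p M hS G (cz P) u huL hupe v hv hvr (Bl M (cz P) θ) b (BlC M (cz P) θ u)
      (Q1_BC M (cz P) u θ).1 hBCb (Q1_BC M (cz P) u θ).2 hsub
      (fun z hz => lo.eqr P hP u huL hupe z hz) χ' h1 h2
  have h1 : ∑ χ' ∈ hfin.toFinset, ev χ' h (u * v) * ev χ' h (u * v)⁻¹ = Sf b v v := by
    have h2 := (hRR4 p M hS G (cz P) u huL hupe b b hBCb hBCb).1 v hv v hv hvr hvr
    rw [Set.inter_self, ← hh, finsum_mem_eq_finite_toFinset_sum _ hfin] at h2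
    exact h2
  have h3 : ∀ z : Z, ∑ χ' ∈ hfin.toFinset, χ' (z : G) / χ' 1 * (ev χ' h (u * v) * ev χ' h (u * v)⁻¹) =
      if z = 1 then Sf b v v else 0 := by
    intro z
    have h4 : ∀ χ' ∈ hfin.toFinset, χ' (z : G) / χ' 1 * (ev χ' h (u * v) * ev χ' h (u * v)⁻¹) =
        ev χ' h ((z : G) * u * v) * ev χ' h (u * v)⁻¹ := by
      intro χ' hχ'
      rw [mul_assoc (z : G) u v, (hTRL G (cz P) Z hZL hZcen χ' (hfin.mem_toFinset.1 hχ')).1 h z z.2 (u * v)]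
      ring
    rw [Finset.sum_congr rfl h4]
    by_cases hz : z = 1
    · rw [if_pos hz, hz]
      rw [← h1]
      refine Finset.sum_congr rfl fun χ' _ => ?_
      rw [OneMemClass.coe_one, one_mul]
    · rw [if_neg hz]
      have h5 := hTRZ p M hS G D x θ χ lo P hP u hu v hv hvr z (hZ z.2) (fun h6 => hz (Subtype.ext h6))
      rw [← hb, ← hh, finsum_mem_eq_finite_toFinset_sum _ hfin] at h5
      exact h5
  have h6 : ∑ χ' ∈ hfin.toFinset, (∑ᶠ z : Z, ((l z : ℂ))⁻¹ * (χ' (z : G) / χ' 1)) *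
      (ev χ' h (u * v) * ev χ' h (u * v)⁻¹) = Sf b v v := by
    have : Fintype Z := Fintype.ofFinite Z
    have h7 : ∀ χ' ∈ hfin.toFinset, (∑ᶠ z : Z, ((l z : ℂ))⁻¹ * (χ' (z : G) / χ' 1)) *
        (ev χ' h (u * v) * ev χ' h (u * v)⁻¹) =
        ∑ z : Z, ((l z : ℂ))⁻¹ * (χ' (z : G) / χ' 1 * (ev χ' h (u * v) * ev χ' h (u * v)⁻¹)) := by
      intro χ' _
      rw [finsum_eq_sum_of_fintype, Finset.sum_mul]
      refine Finset.sum_congr rfl fun z _ => ?_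
      ring
    rw [Finset.sum_congr rfl h7, Finset.sum_comm]
    have h8 : ∀ z ∈ (Finset.univ : Finset Z),
        ∑ χ' ∈ hfin.toFinset, ((l z : ℂ))⁻¹ * (χ' (z : G) / χ' 1 * (ev χ' h (u * v) * ev χ' h (u * v)⁻¹)) =
        if z = 1 then Sf b v v else 0 := by
      intro z _
      rw [← Finset.mul_sum, h3 z]
      by_cases hz : z = 1
      · rw [if_pos hz, hz, map_one, Units.val_one, inv_one, one_mul]
      · rw [if_neg hz, mul_zero]
    rw [Finset.sum_congr rfl h8, Finset.sum_ite_eq' Finset.univ (1 : Z) fun _ => Sf b v v,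
      if_pos (Finset.mem_univ _)]
  have hX : (XL M (cz P) θ Z l).Finite := hfin.subset fun ψ hψ => hψ.1.1
  have h9 : ∑ χ' ∈ hfin.toFinset, (∑ᶠ z : Z, ((l z : ℂ))⁻¹ * (χ' (z : G) / χ' 1)) *
      (ev χ' h (u * v) * ev χ' h (u * v)⁻¹) =
      ∑ χ' ∈ hX.toFinset, (Nat.card Z : ℂ) * (ev χ' h (u * v) * ev χ' h (u * v)⁻¹) := by
    symm
    refine Finset.sum_subset_zero_on_sdiff (fun ψ hψ => ?_) (fun ψ hψ => ?_) fun ψ hψ => ?_
    · rw [Set.Finite.mem_toFinset] at hψ ⊢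
      exact hψ.1.1
    · rw [Finset.mem_sdiff, Set.Finite.mem_toFinset, Set.Finite.mem_toFinset] at hψ
      rw [(hTRL G (cz P) Z hZL hZcen ψ hψ.1).2 l]
      by_cases hov : ∀ z : Z, ψ z = (l z : ℂ) * ψ 1
      · rw [hF0 ψ hψ.1 fun h10 => hψ.2 ⟨h10, hov⟩, zero_mul, mul_zero]
      · rw [if_neg hov, zero_mul]
    · rw [Set.Finite.mem_toFinset] at hψ
      rw [(hTRL G (cz P) Z hZL hZcen ψ hψ.1.1).2 l, if_pos hψ.2]
  have hZ0 : (Nat.card Z : ℂ) ≠ 0 := by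
    exact_mod_cast (Nat.card_pos : 0 < Nat.card Z).ne'
  rw [finsum_mem_eq_finite_toFinset_sum _ hX, eq_div_iff hZ0, mul_comm, Finset.mul_sum, ← h9, h6]

end Pool.Agent.FI3
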