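import Pool.Agent.helper59.FI3.AllP3
import Pool.Agent.helper70.FI.AllQ1
import Pool.Agent.helper70.FI3.OutN3
import Pool.Agent.helper83.FI3.QWA3
import Pool.Agent.helper76.FI3.QWT3
import Pool.Agent.helper11.FI3.SUA3
import Pool.Agent.helper76.FI3.SUC3
import Pool.Agent.helper1.FI3.QMY3
import Pool.Agent.helper84.FI3.QMXS
import Pool.Agent.helper33.FI3.DCV3
import Pool.Agent.helper88.FI3.DBV3
import Pool.Agent.helper88.FI3.TRZ3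
import Pool.Agent.helper39.FI3.TRL3
import Pool.Agent.helper70.FI3.TRV3
import Pool.Agent.helper14.FI3.TRSS
import Pool.Agent.helper76.FI3.GTR3
import Pool.Agent.helper64.FI3.NWT3
import Pool.Agent.helper65.FI3.N3CS

/-!
# Project fi3, block N3: all statements without hypotheses (helper70)

`nQMX3`, `nTRS`, `nN3C` are the output statements of `helper12/FI3/SpecO`.
-/

set_option autoImplicit false

namespace Pool.Agent.FI3.AllN3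

open Pool.Agent.helper58.DC Pool.Agent.DI Pool.Agent.GR Pool.Agent.OB Pool.Agent.DR Pool.Agent.FI Pool.Agent.FI3 Pool.Agent.GR.All

theorem nQWA3 : QWA3_stmt := QWA3 AllP3.pQFU3 AllC.cFEQ
theorem nQWT3 : QWT3_stmt := QWT3 nQWA3 AllP3.pQCN3 AllC.cFEQ
theorem nSUA3 : SUA3_stmt := SUA3 AllQ1.qQES AllQ1.qQCE AllR.rCHC dB2
theorem nSUC3 : SUC3_stmt := SUC3 nSUA3 AllQ1.qQCJ AllC.cFEQ dB2
theorem nQMY3 : QMY3_stmt := QMY3 AllQ1.qQMS nQWT3 nSUC3 AllQ1.qQEI AllC.cFEQ dB2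
theorem nQMXS : QMXS_stmt := QMXS nQMY3 dPPT dB2
theorem nDCV3 : DCV3_stmt := DCV3 AllR.rRR1 AllR.rEVM dIDM dEIN dCVF dCCI dEXP dB2
theorem nDBV3 : DBV3_stmt := DBV3 AllR.rRR2 AllR.rCOF dIDM dEIN dCVF dCCI dEXP AllC.cFEQ
theorem nTRZ3 : TRZ3_stmt := TRZ3 nDBV3 AllP3.pQFU3 AllP3.pFRA3
theorem nTRL3 : TRL3_stmt := TRL3 AllQ1.qQCE dB2
theorem nTRV3 : TRV3_stmt := TRV3 nTRZ3 nTRL3 nDCV3 AllR.rRR4 dB2
theorem nTRSS : TRSS_stmt := TRSS nTRV3 AllR.rCJI dIDM dB2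
theorem nGTR3 : GTR3_stmt := GTR3 AllC.cHTN
theorem nNWT3 : NWT3_stmt := NWT3 AllP3.pFRA3 nGTR3
theorem nN3CS : N3CS_stmt := N3CS nQMXS nTRSS nNWT3 AllQ1.qQIR AllA.dEXB dB2
theorem nQMX3 : QMX3_stmt := QMX3_of nQMXS
theorem nTRS : TRS_stmt := TRS_of nTRSS
theorem nN3C : N3C_stmt := N3C_of nN3CS

end Pool.Agent.FI3.AllN3
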